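import Pool.Agent.H326.CS.A

/-!
Roots of unity at which two linear forms are rational multiples of roots of unity.
-/

set_option autoImplicit false

namespace Pool.Agent.H326.DL

open Pool.Agent.H326.CS

lemma int_one {p r i j : ℤ} (hp : p ≠ 0) (hr : r ≠ 0) (hi : -2 ≤ i ∧ i ≤ 2) (hj : -2 ≤ j ∧ j ≤ 2)
    (h1 : (2 * p + r) ^ 2 = j ^ 2 * (p ^ 2 + p * r + r ^ 2))
    (h2 : (p + 2 * r) ^ 2 = i ^ 2 * (p ^ 2 + p * r + r ^ 2)) : r = -p := by
  have hp2 : 0 < p ^ 2 := by positivity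
  have hr2 : 0 < r ^ 2 := by positivity
  rcases sq_cases hj with h | h | h
  · rw [h, zero_mul] at h1
    have h3 : 2 * p + r = 0 := pow_eq_zero_iff two_ne_zero |>.mp h1
    have h4 : r = -2 * p := by linarith
    rw [h4] at h2
    have h5 : (p + 2 * (-2 * p)) ^ 2 = 9 * p ^ 2 := by ring
    have h6 : i ^ 2 * (p ^ 2 + p * (-2 * p) + (-2 * p) ^ 2) = 3 * (i ^ 2 * p ^ 2) := by ring
    rw [h5, h6] at h2
    rcases sq_cases hi with h' | h' | h' <;> rw [h'] at h2 <;> omega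
  · rw [h, one_mul] at h1
    have h3 : p * (r + p) = 0 := by nlinarith
    rcases mul_eq_zero.mp h3 with h4 | h4
    · exact absurd h4 hp
    · linarith
  · rw [h] at h1
    have : r ^ 2 = 0 := by nlinarith
    omega

lemma int_zero {p r i j : ℤ} (hp : p ≠ 0) (hr : r ≠ 0) (hi : -2 ≤ i ∧ i ≤ 2)
    (hj : -2 ≤ j ∧ j ≤ 2) (h1 : 4 * p ^ 2 = j ^ 2 * (p ^ 2 + r ^ 2))
    (h2 : 4 * r ^ 2 = i ^ 2 * (p ^ 2 + r ^ 2)) : False := by
  have hp2 : 0 < p ^ 2 := by positivity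
  have hr2 : 0 < r ^ 2 := by positivity
  obtain ⟨e, he⟩ : ∃ e, e = i ^ 2 := ⟨_, rfl⟩
  obtain ⟨f, hf⟩ : ∃ f, f = j ^ 2 := ⟨_, rfl⟩
  have hi2 := sq_cases hi
  have hj2 := sq_cases hj
  rw [← he] at hi2 h2
  rw [← hf] at hj2 h1
  rcases hi2 with rfl | rfl | rfl <;> rcases hj2 with rfl | rfl | rfl <;> omega

/-- one linear form -/
lemma one_form (z : ℂ) (p r c : ℤ) (hp : p ≠ 0) (hr : r ≠ 0) (hc : c ≠ 0) (hz2 : z ^ 2 ≠ 1)
    (N0 N1 : ℕ) (h0 : 1 ≤ N0) (h1 : 1 ≤ N1) (e0 : z ^ N0 = 1)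
    (e1 : ((p : ℂ) + r * z) ^ N1 = (c : ℂ) ^ N1) :
    (2 * z.re = 1 ∧ r = -p) ∨ (2 * z.re = -1 ∧ r = p) := by
  have hcc : (c : ℂ) ≠ 0 := by exact_mod_cast hc
  have hcr : (c : ℝ) ≠ 0 := by exact_mod_cast hc
  have hpr : (p : ℝ) ≠ 0 := by exact_mod_cast hp
  have hrr : (r : ℝ) ≠ 0 := by exact_mod_cast hr
  have hn0 := norm_one_of h0 e0
  have hxy : z.re ^ 2 + z.im ^ 2 = 1 := by
    have := Complex.sq_norm z
    rw [hn0, Complex.normSq_apply] at this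
    linarith
  obtain ⟨w1, hw1⟩ : ∃ w, w = ((p : ℂ) + r * z) / c := ⟨_, rfl⟩
  have f1 : w1 ^ N1 = 1 := by rw [hw1, div_pow, e1, div_self (pow_ne_zero _ hcc)]
  obtain ⟨w3, hw3⟩ : ∃ w, w = w1 * starRingEnd ℂ z := ⟨_, rfl⟩
  have f3 : w3 ^ (N1 * N0) = 1 := by
    rw [hw3, mul_pow, pow_mul, f1, one_pow, one_mul, mul_comm N1, pow_mul, ← map_pow, e0, map_one,
      one_pow]
  have k1 := norm_one_of h1 f1
  have r1 : w1.re = (p + r * z.re) / c := by
    rw [hw1]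
    simp [Complex.div_intCast_re]
  have i1 : w1.im = (r * z.im) / c := by
    rw [hw1]
    simp [Complex.div_intCast_im]
  have r3 : w3.re = (p * z.re + r) / c := by
    rw [hw3, Complex.mul_re, Complex.conj_re, Complex.conj_im, r1, i1]
    have : ((p : ℝ) * z.re + r) / c = (p * z.re + r * (z.re ^ 2 + z.im ^ 2)) / c := by
      rw [hxy, mul_one]
    rw [this]
    ring
  have n1 : (p : ℝ) ^ 2 + 2 * p * r * z.re + r ^ 2 = c ^ 2 := by
    have := Complex.sq_norm w1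
    rw [k1, Complex.normSq_apply, r1, i1] at this
    field_simp at this
    have h5 : (p : ℝ) ^ 2 + 2 * p * r * z.re + r ^ 2 =
      p ^ 2 + 2 * p * r * z.re + r ^ 2 * (z.re ^ 2 + z.im ^ 2) := by rw [hxy]; ring
    rw [h5]
    linarith
  obtain ⟨k, hk, hk1, hk2⟩ := two_re z N0 h0 e0
    (((c : ℚ) ^ 2 - p ^ 2 - r ^ 2) / (p * r)) (by
      push_cast
      field_simp
      linarith)
  have hk' : 2 * z.re = k := by
    have h5 : (((((c : ℚ) ^ 2 - p ^ 2 - r ^ 2) / (p * r) : ℚ)) : ℝ) = ((k : ℚ) : ℝ) := by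
      rw [hk]
    push_cast at h5
    rw [← h5]
    field_simp
    linarith
  obtain ⟨j, hj, hj1, hj2⟩ := two_re w1 N1 h1 f1 ((2 * p + k * r : ℚ) / c) (by
    push_cast
    rw [r1, ← hk']
    ring)
  obtain ⟨i, hi, hi1, hi2⟩ := two_re w3 (N1 * N0) (Nat.mul_pos h1 h0) f3
    ((k * p + 2 * r : ℚ) / c) (by
    push_cast
    rw [r3, ← hk']
    ring)
  have hc0 : (c : ℚ) ≠ 0 := by exact_mod_cast hc
  rw [div_eq_iff hc0] at hj hi
  have n1' : c ^ 2 = p ^ 2 + k * p * r + r ^ 2 := by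
    have : (c : ℝ) ^ 2 = (p : ℝ) ^ 2 + k * p * r + r ^ 2 := by
      rw [← n1, ← hk']
      ring
    exact_mod_cast this
  have m1 : (2 * p + k * r) ^ 2 = j ^ 2 * (p ^ 2 + k * p * r + r ^ 2) := by
    have h6 : 2 * p + k * r = j * c := by exact_mod_cast hj
    rw [h6, mul_pow, n1']
  have m3 : (k * p + 2 * r) ^ 2 = i ^ 2 * (p ^ 2 + k * p * r + r ^ 2) := by
    have h6 : k * p + 2 * r = i * c := by exact_mod_cast hi
    rw [h6, mul_pow, n1']
  have hpm : z.re ^ 2 = 1 → False := by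
    intro h
    have him : z.im = 0 := by
      have : z.im ^ 2 = 0 := by linarith
      exact pow_eq_zero_iff (by norm_num) |>.mp this
    apply hz2
    apply Complex.ext
    · rw [pow_two, Complex.mul_re, him, Complex.one_re]
      linarith [pow_two z.re]
    · rw [pow_two, Complex.mul_im, him, Complex.one_im]
      ring
  have hkc : k = -2 ∨ k = -1 ∨ k = 0 ∨ k = 1 ∨ k = 2 := by omega
  rcases hkc with rfl | rfl | rfl | rfl | rfl
  · exfalso
    apply hpm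
    push_cast at hk'
    have : z.re = -1 := by linarith
    rw [this]
    norm_num
  · right
    push_cast at hk'
    refine ⟨hk', ?_⟩
    have := int_one (p := p) (r := -r) (i := i) (j := j) hp (neg_ne_zero.mpr hr) ⟨hi1, hi2⟩
      ⟨hj1, hj2⟩ (by
        calc (2 * p + -r) ^ 2 = (2 * p + -1 * r) ^ 2 := by ring
          _ = _ := by rw [m1]; ring) (by
        calc (p + 2 * -r) ^ 2 = (-1 * p + 2 * r) ^ 2 := by ring
          _ = _ := by rw [m3]; ring)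
    linarith
  · exfalso
    exact int_zero (p := p) (r := r) (i := i) (j := j) hp hr ⟨hi1, hi2⟩ ⟨hj1, hj2⟩ (by
        calc 4 * p ^ 2 = (2 * p + 0 * r) ^ 2 := by ring
          _ = _ := by rw [m1]; ring) (by
        calc 4 * r ^ 2 = (0 * p + 2 * r) ^ 2 := by ring
          _ = _ := by rw [m3]; ring)
  · left
    push_cast at hk'
    refine ⟨hk', ?_⟩
    exact int_one (p := p) (r := r) (i := i) (j := j) hp hr ⟨hi1, hi2⟩
      ⟨hj1, hj2⟩ (by
        calc (2 * p + r) ^ 2 = (2 * p + 1 * r) ^ 2 := by ring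
          _ = _ := by rw [m1]; ring) (by
        calc (p + 2 * r) ^ 2 = (1 * p + 2 * r) ^ 2 := by ring
          _ = _ := by rw [m3]; ring)
  · exfalso
    apply hpm
    push_cast at hk'
    have : z.re = 1 := by linarith
    rw [this]
    norm_num

/-- **the archimedean condition for two linear forms** -/
theorem no_z4 (z : ℂ) (p r c p' r' c' : ℤ) (hp : p ≠ 0) (hr : r ≠ 0) (hc : c ≠ 0) (hp' : p' ≠ 0)
    (hr' : r' ≠ 0) (hc' : c' ≠ 0) (hdet : p * r' ≠ r * p') (hz2 : z ^ 2 ≠ 1) (N0 N1 N2 : ℕ)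
    (h0 : 1 ≤ N0) (h1 : 1 ≤ N1) (h2 : 1 ≤ N2) (e0 : z ^ N0 = 1)
    (e1 : ((p : ℂ) + r * z) ^ N1 = (c : ℂ) ^ N1)
    (e2 : ((p' : ℂ) + r' * z) ^ N2 = (c' : ℂ) ^ N2) : False := by
  have g1 := one_form z p r c hp hr hc hz2 N0 N1 h0 h1 e0 e1
  have g2 := one_form z p' r' c' hp' hr' hc' hz2 N0 N2 h0 h2 e0 e2
  rcases g1 with ⟨a1, a2⟩ | ⟨a1, a2⟩ <;> rcases g2 with ⟨b1, b2⟩ | ⟨b1, b2⟩
  · apply hdet
    rw [a2, b2]
    ring
  · linarith
  · linarith
  · apply hdet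
    rw [a2, b2]

end Pool.Agent.H326.DL
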