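import Pool.Agent.H326.CS.B
import Pool.Agent.H326.DL.A

/-!
The bad auxiliary primes for the power covers of lines.
-/

set_option autoImplicit false

namespace Pool.Agent.H326.DL

open Polynomial Pool.Agent.H573.AHB Pool.Agent.H326.CS

/-- the three simultaneous conditions; `v = (p, r, c, p', r', c')` -/
def T4 (v : Fin 6 → ℤ) (q n : ℕ) : Prop :=
  ∃ t : ZMod q, t ^ 2 ≠ 1 ∧ t ^ n = 1 ∧
    ((v 0 : ZMod q) + (v 1 : ZMod q) * t) ^ n = (v 2 : ZMod q) ^ n ∧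
    ((v 3 : ZMod q) + (v 4 : ZMod q) * t) ^ n = (v 5 : ZMod q) ^ n

noncomputable def gg (v : Fin 6 → ℤ) : Fin 3 → ℤ[X] :=
  ![X, C (v 0) + C (v 1) * X, C (v 3) + C (v 4) * X]

def dd3 (v : Fin 6 → ℤ) : Fin 3 → ℤ := ![1, v 2, v 5]

section
variable {R : Type*} [CommRing R] (t : R) (v : Fin 6 → ℤ)

lemma gg_0 : aeval t (gg v 0) = t := by simp [gg]
lemma gg_1 : aeval t (gg v 1) = (v 0 : R) + (v 1 : R) * t := by simp [gg]
lemma gg_2 : aeval t (gg v 2) = (v 3 : R) + (v 4 : R) * t := by simp [gg]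

end

lemma d_0 (v : Fin 6 → ℤ) : dd3 v 0 = 1 := rfl
lemma d_1 (v : Fin 6 → ℤ) : dd3 v 1 = v 2 := rfl
lemma d_2 (v : Fin 6 → ℤ) : dd3 v 2 = v 5 := rfl

lemma int_ne {q : ℕ} {H : ℕ} {x : ℤ} (hq : H < q) (h1 : x ≠ 0) (h2 : |x| ≤ H) :
    ((x : ℤ) : ZMod q) ≠ 0 := by
  intro h
  rw [ZMod.intCast_zmod_eq_zero_iff_dvd] at h
  have h3 := Int.le_of_dvd (abs_pos.mpr h1) ((dvd_abs (q : ℤ) x).mpr h)
  have h4 : (H : ℤ) < q := by exact_mod_cast hq
  omega

lemma L1_form (p r : ℤ) (H : ℕ) (hp : |p| ≤ H) (hr : |r| ≤ H) :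
    L1 (C p + C r * X) ≤ 2 * (H : ℝ) := by
  have hp' : |(p : ℝ)| ≤ H := by exact_mod_cast hp
  have hr' : |(r : ℝ)| ≤ H := by exact_mod_cast hr
  have e1 : L1 (C r * X) ≤ H := by
    have := L1_C_mul r X
    rw [L1_X, mul_one] at this
    linarith
  have e2 : L1 (C p) ≤ H := by
    rw [L1_C]
    exact hp'
  have := L1_add (C p) (C r * X)
  linarith

lemma Ac_gg (v : Fin 6 → ℤ) (H : ℕ) (hH : 1 ≤ H) (hv : ∀ i, |v i| ≤ H) :
    Ac (gg v) (dd3 v) ≤ 11 * (H : ℝ) ^ 4 := by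
  have hHr : (1 : ℝ) ≤ H := by exact_mod_cast hH
  have hH4 : (1 : ℝ) ≤ (H : ℝ) ^ 4 := one_le_pow₀ hHr
  have e0 : max 1 (L1 (gg v 0)) = 1 := by
    have : gg v 0 = X := rfl
    rw [this, L1_X, max_self]
  have e1 : max 1 (L1 (gg v 1)) ≤ 2 * (H : ℝ) :=
    max_le (by linarith) (L1_form (v 0) (v 1) H (hv _) (hv _))
  have e2 : max 1 (L1 (gg v 2)) ≤ 2 * (H : ℝ) :=
    max_le (by linarith) (L1_form (v 3) (v 4) H (hv _) (hv _))
  have g0 : max 1 (L1 (C (dd3 v 0))) = 1 := by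
    rw [d_0, L1_C]
    simp
  have g1 : max 1 (L1 (C (dd3 v 1))) ≤ H := by
    rw [d_1, L1_C]
    apply max_le hHr
    exact_mod_cast hv 2
  have g2 : max 1 (L1 (C (dd3 v 2))) ≤ H := by
    rw [d_2, L1_C]
    apply max_le hHr
    exact_mod_cast hv 5
  have hBc : Bc (gg v) (dd3 v) ≤ 4 * (H : ℝ) ^ 4 := by
    unfold Bc
    rw [Fin.prod_univ_three, e0, g0]
    have p1 : (0 : ℝ) ≤ max 1 (L1 (gg v 1)) := zero_le_one.trans (le_max_left _ _)
    have p2 : (0 : ℝ) ≤ max 1 (L1 (gg v 2)) := zero_le_one.trans (le_max_left _ _)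
    have p3 : (0 : ℝ) ≤ max 1 (L1 (C (dd3 v 1))) := zero_le_one.trans (le_max_left _ _)
    have p4 : (0 : ℝ) ≤ max 1 (L1 (C (dd3 v 2))) := zero_le_one.trans (le_max_left _ _)
    have m1 := mul_le_mul e1 g1 p3 (by positivity)
    have m2 := mul_le_mul e2 g2 p4 (by positivity)
    calc (1 : ℝ) * 1 * (max 1 (L1 (gg v 1)) * max 1 (L1 (C (dd3 v 1)))) *
          (max 1 (L1 (gg v 2)) * max 1 (L1 (C (dd3 v 2))))
        = (max 1 (L1 (gg v 1)) * max 1 (L1 (C (dd3 v 1)))) *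
          (max 1 (L1 (gg v 2)) * max 1 (L1 (C (dd3 v 2)))) := by ring
      _ ≤ (2 * (H : ℝ) * H) * (2 * (H : ℝ) * H) :=
          mul_le_mul m1 m2 (mul_nonneg p2 p4) (by positivity)
      _ = _ := by ring
  have hB1 : 1 ≤ Bc (gg v) (dd3 v) := one_le_Bc _ _
  have hdeg : ∑ i, (gg v i).natDegree ≤ 3 := by
    have d0 : (gg v 0).natDegree ≤ 1 := by
      have : gg v 0 = X := rfl
      rw [this]
      exact natDegree_X_le
    have dl : ∀ c d : ℤ, (C c + C d * X : ℤ[X]).natDegree ≤ 1 := by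
      intro c d
      refine (natDegree_add_le _ _).trans (max_le ?_ ?_)
      · rw [natDegree_C]; omega
      · exact (natDegree_C_mul_le _ _).trans natDegree_X_le
    have d1 : (gg v 1).natDegree ≤ 1 := dl _ _
    have d2 : (gg v 2).natDegree ≤ 1 := dl _ _
    rw [Fin.sum_univ_three]
    omega
  have hdeg' : ((∑ i, (gg v i).natDegree : ℕ) : ℝ) ≤ 3 := by exact_mod_cast hdeg
  have hlog : Real.log (2 * Bc (gg v) (dd3 v)) ≤ 8 * (H : ℝ) ^ 4 := by
    have h1 : Real.log (2 * Bc (gg v) (dd3 v)) ≤ 2 * Bc (gg v) (dd3 v) := by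
      have := Real.log_le_sub_one_of_pos (show (0 : ℝ) < 2 * Bc (gg v) (dd3 v) by linarith)
      linarith
    linarith
  unfold Ac
  linarith

theorem ucount_T4 (v : Fin 6 → ℤ) (H : ℕ) (hH : 1 ≤ H) (hv1 : ∀ i, v i ≠ 0)
    (hv : ∀ i, |v i| ≤ H) (hdet : v 0 * v 4 ≠ v 1 * v 3) :
    UCount (T4 v) (2 ^ 24 * (H : ℝ) ^ 8) (2 * H ^ 2) := by
  have hHH : H ≤ 2 * H ^ 2 := by nlinarith
  have habs : |v 0 * v 4 - v 1 * v 3| ≤ ((2 * H ^ 2 : ℕ) : ℤ) := by
    have b0 := hv 0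
    have b1 := hv 1
    have b3 := hv 3
    have b4 := hv 4
    have c1 : |v 0 * v 4| ≤ (H : ℤ) * H := by
      rw [abs_mul]
      exact mul_le_mul b0 b4 (abs_nonneg _) (by positivity)
    have c2 : |v 1 * v 3| ≤ (H : ℤ) * H := by
      rw [abs_mul]
      exact mul_le_mul b1 b3 (abs_nonneg _) (by positivity)
    have c3 := abs_sub (v 0 * v 4) (v 1 * v 3)
    push_cast
    nlinarith
  have h := count_primesE (r := 3) (by norm_num) (gg v) (dd3 v) (fun i => by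
      rcases fin3' i with rfl | rfl | rfl
      · rw [d_0]; norm_num
      · rw [d_1]; exact hv1 2
      · rw [d_2]; exact hv1 5)
    (X ^ 2 - 1) (2 * H ^ 2) (by
      intro q hq hq2 i
      have hF : Fact q.Prime := ⟨hq⟩
      rcases fin3' i with rfl | rfl | rfl
      · rw [d_0, Int.cast_one]; exact one_ne_zero
      · rw [d_1]; exact int_ne (by omega) (hv1 _) (hv _)
      · rw [d_2]; exact int_ne (by omega) (hv1 _) (hv _)) (by
      intro q hF hq2 i
      have n0 : (v 0 : ZMod q) ≠ 0 := int_ne (H := H) (by omega) (hv1 _) (hv _)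
      have n1 : (v 1 : ZMod q) ≠ 0 := int_ne (H := H) (by omega) (hv1 _) (hv _)
      have n3 : (v 3 : ZMod q) ≠ 0 := int_ne (H := H) (by omega) (hv1 _) (hv _)
      have n4 : (v 4 : ZMod q) ≠ 0 := int_ne (H := H) (by omega) (hv1 _) (hv _)
      have nd : ((v 0 * v 4 - v 1 * v 3 : ℤ) : ZMod q) ≠ 0 :=
        int_ne (H := 2 * H ^ 2) hq2 (sub_ne_zero.mpr hdet) habs
      push_cast at nd
      rcases fin3' i with rfl | rfl | rfl
      · refine ⟨ZMod q, inferInstance, inferInstance, 0, gg_0 0 v, ?_⟩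
        intro j hj
        rcases fin3' j with rfl | rfl | rfl
        · exact absurd rfl hj
        · rw [gg_1, mul_zero, add_zero]; exact n0
        · rw [gg_2, mul_zero, add_zero]; exact n3
      · refine ⟨ZMod q, inferInstance, inferInstance, -(v 0 : ZMod q) / (v 1 : ZMod q), ?_, ?_⟩
        · rw [gg_1, mul_div_cancel₀ _ n1, add_neg_cancel]
        intro j hj
        rcases fin3' j with rfl | rfl | rfl
        · rw [gg_0]; exact div_ne_zero (neg_ne_zero.mpr n0) n1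
        · exact absurd rfl hj
        · rw [gg_2]
          intro h0
          apply nd
          field_simp at h0
          linear_combination -h0
      · refine ⟨ZMod q, inferInstance, inferInstance, -(v 3 : ZMod q) / (v 4 : ZMod q), ?_, ?_⟩
        · rw [gg_2, mul_div_cancel₀ _ n4, add_neg_cancel]
        intro j hj
        rcases fin3' j with rfl | rfl | rfl
        · rw [gg_0]; exact div_ne_zero (neg_ne_zero.mpr n3) n4
        · rw [gg_1]
          intro h0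
          apply nd
          field_simp at h0
          linear_combination h0
        · exact absurd rfl hj) (by
      intro z hz
      by_contra hcon
      push Not at hcon
      obtain ⟨N0, a0, b0⟩ := hcon 0
      obtain ⟨N1, a1, b1⟩ := hcon 1
      obtain ⟨N2, a2, b2⟩ := hcon 2
      rw [d_0, Int.cast_one, one_pow, gg_0] at b0
      rw [d_1, gg_1] at b1
      rw [d_2, gg_2] at b2
      refine no_z4 z (v 0) (v 1) (v 2) (v 3) (v 4) (v 5) (hv1 _) (hv1 _) (hv1 _) (hv1 _) (hv1 _)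
        (hv1 _) hdet ?_ N0 N1 N2 a0 a1 a2 b0 b1 b2
      intro h2
      apply hz
      rw [map_sub, map_pow, aeval_X, map_one, h2, sub_self])
  have hAc := Ac_gg v H hH hv
  have hAc0 := Ac_nonneg (gg v) (dd3 v)
  have hl2 : (1 : ℝ) / 2 ≤ Real.log 2 := by
    have := Real.log_two_gt_d9
    linarith
  have hl0 : 0 < Real.log 2 := by linarith
  have hHr : (1 : ℝ) ≤ H := by exact_mod_cast hH
  have hU : UCount (T4 v) ((2 ^ (3 + 1) * Ac (gg v) (dd3 v) * (((3 : ℕ) : ℝ) ^ (3 - 1)) /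
      Real.log 2) * Ac (gg v) (dd3 v) * (2 * ((3 : ℕ) : ℝ) * 3 ^ (3 - 1))) (2 * H ^ 2) := by
    intro K R hR hRK hKR Q hQ
    exact h K R hR hRK hKR Q (by
      intro q hq
      obtain ⟨g1, g2, n, g3, g4, _, t, ht0, ht1, ht2, ht3⟩ := hQ q hq
      have hF : Fact q.Prime := ⟨g1⟩
      refine ⟨g1, g2, t, n, g3, g4, ?_, ?_⟩
      · rw [map_sub, map_pow, aeval_X, map_one]
        exact sub_ne_zero.mpr ht0
      · intro i
        rcases fin3' i with rfl | rfl | rfl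
        · rw [gg_0, d_0, Int.cast_one, one_pow]; exact ht1
        · rw [gg_1, d_1]; exact ht2
        · rw [gg_2, d_2]; exact ht3)
  refine hU.weak ?_ le_rfl
  have e1 : 2 ^ (3 + 1) * Ac (gg v) (dd3 v) * (((3 : ℕ) : ℝ) ^ (3 - 1)) / Real.log 2 ≤
      2 ^ 4 * (11 * (H : ℝ) ^ 4) * 9 * 2 := by
    rw [div_le_iff₀ hl0]
    have h3 : (((3 : ℕ) : ℝ) ^ (3 - 1)) = 9 := by norm_num
    rw [h3]
    have h4 : (2 : ℝ) ^ (3 + 1) * Ac (gg v) (dd3 v) * 9 ≤ 2 ^ 4 * (11 * (H : ℝ) ^ 4) * 9 := by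
      have : (2 : ℝ) ^ (3 + 1) = 2 ^ 4 := by norm_num
      rw [this]
      nlinarith
    have h5 : (0 : ℝ) ≤ 2 ^ 4 * (11 * (H : ℝ) ^ 4) * 9 := by positivity
    nlinarith
  have e2 : (0 : ℝ) ≤ 2 ^ 4 * (11 * (H : ℝ) ^ 4) * 9 * 2 := by positivity
  calc _ ≤ (2 ^ 4 * (11 * (H : ℝ) ^ 4) * 9 * 2) * (11 * (H : ℝ) ^ 4) * (2 * ((3 : ℕ) : ℝ) * 3 ^ (3 - 1)) := by
        apply mul_le_mul_of_nonneg_right _ (by positivity)
        exact mul_le_mul e1 hAc hAc0 e2
    _ = (2 ^ 4 * 11 * 9 * 2 * 11 * (2 * 3 * 9)) * (H : ℝ) ^ 8 := by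
        push_cast
        ring
    _ ≤ 2 ^ 24 * (H : ℝ) ^ 8 := by
        apply mul_le_mul_of_nonneg_right _ (by positivity)
        norm_num

end Pool.Agent.H326.DL
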