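import Pool.Agent.H326.DL.B

/-!
The bad auxiliary primes are rare, uniformly in the coefficients of the forms.
-/

set_option autoImplicit false

namespace Pool.Agent.H326.DL

open Finset Pool.Agent.H573.AHB Pool.Agent.H326.CS

def WN (M q n : ℕ) : Prop :=
  ∃ i ∈ ((Icc 1 (2 * M ^ 2)) ×ˢ (Icc 1 (2 * M ^ 2)) : Finset (ℕ × ℕ)),
    i.1 ≠ i.2 ∧ (i.1 : ZMod q) ^ n = (i.2 : ZMod q) ^ n

def WT (M q n : ℕ) : Prop :=
  ∃ v ∈ Fintype.piFinset (fun _ : Fin 6 => Icc (-(2 * M ^ 2 : ℤ)) (2 * M ^ 2 : ℤ)),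
    ((∀ i, v i ≠ 0) ∧ v 0 * v 4 ≠ v 1 * v 3) ∧ T4 v q n

/-- the bad pairs -/
def BD (M q n : ℕ) : Prop := WN M q n ∨ WT M q n

lemma usparse_WN : USparse WN := by
  refine ⟨14, fun M => ?_⟩
  have hM0 : (0 : ℝ) ≤ M := Nat.cast_nonneg M
  have hl2 : (1 : ℝ) / 2 ≤ Real.log 2 := by
    have := Real.log_two_gt_d9
    linarith
  have hl0 : 0 < Real.log 2 := by linarith
  have h := UCount.exists_mem ((Icc 1 (2 * M ^ 2)) ×ˢ (Icc 1 (2 * M ^ 2)))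
    (fun i q n => i.1 ≠ i.2 ∧ (i.1 : ZMod q) ^ n = (i.2 : ZMod q) ^ n) (8 * (M : ℝ) ^ 2)
    ((M + 2) ^ 14) (by
      rintro ⟨a, b⟩ hi
      rw [mem_product, mem_Icc, mem_Icc] at hi
      obtain ⟨⟨ha1, ha2⟩, hb1, hb2⟩ := hi
      apply UCount.and_left (by positivity)
      intro hne
      refine (ucount_num a b ha1 hb1 hne _).weak ?_ le_rfl
      rw [div_le_iff₀ hl0]
      have ha2' : (a : ℝ) ≤ 2 * (M : ℝ) ^ 2 := by exact_mod_cast ha2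
      have hb2' : (b : ℝ) ≤ 2 * (M : ℝ) ^ 2 := by exact_mod_cast hb2
      have ha1' : (1 : ℝ) ≤ a := by exact_mod_cast ha1
      have hb1' : (1 : ℝ) ≤ b := by exact_mod_cast hb1
      have h1 := Real.log_le_sub_one_of_pos (show (0 : ℝ) < (a : ℝ) + b by linarith)
      have h2 : (0 : ℝ) ≤ (M : ℝ) ^ 2 := by positivity
      nlinarith)
  refine h.weak ?_ le_rfl
  rw [card_product, Nat.card_Icc, Nat.add_sub_cancel]
  push_cast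
  have h1 : (M : ℝ) ^ 6 ≤ ((M : ℝ) + 2) ^ 6 := pow_le_pow_left₀ hM0 (by linarith) 6
  have h2 : (32 : ℝ) ≤ ((M : ℝ) + 2) ^ 8 := by
    calc (32 : ℝ) ≤ 2 ^ 8 := by norm_num
      _ ≤ _ := pow_le_pow_left₀ (by norm_num) (by linarith) 8
  calc 2 * (M : ℝ) ^ 2 * (2 * (M : ℝ) ^ 2) * (8 * (M : ℝ) ^ 2) = M ^ 6 * 32 := by ring
    _ ≤ ((M : ℝ) + 2) ^ 6 * ((M : ℝ) + 2) ^ 8 := mul_le_mul h1 h2 (by norm_num) (by positivity)
    _ = ((M : ℝ) + 2) ^ (6 + 8) := (pow_add _ _ _).symm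

lemma usparse_WT : USparse WT := by
  refine ⟨66, fun M => ?_⟩
  have hM0 : (0 : ℝ) ≤ M := Nat.cast_nonneg M
  have h := UCount.exists_mem
    (Fintype.piFinset (fun _ : Fin 6 => Icc (-(2 * M ^ 2 : ℤ)) (2 * M ^ 2 : ℤ)))
    (fun v q n => ((∀ i, v i ≠ 0) ∧ v 0 * v 4 ≠ v 1 * v 3) ∧ T4 v q n)
    (2 ^ 24 * ((2 * M ^ 2 : ℕ) : ℝ) ^ 8) (2 * (2 * M ^ 2) ^ 2) (by
      intro v hv
      rw [Fintype.mem_piFinset] at hv
      have hv' : ∀ i, |v i| ≤ ((2 * M ^ 2 : ℕ) : ℤ) := by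
        intro i
        have := mem_Icc.mp (hv i)
        push_cast
        exact abs_le.mpr this
      apply UCount.and_left (by positivity)
      rintro ⟨h1, h2⟩
      have hH : 1 ≤ 2 * M ^ 2 := by
        have h3 := hv' 0
        have h4 := abs_pos.mpr (h1 0)
        omega
      exact ucount_T4 v (2 * M ^ 2) hH h1 hv' h2)
  refine h.weak ?_ ?_
  · rw [Fintype.card_piFinset, Finset.prod_const, Int.card_Icc, Finset.card_univ,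
      Fintype.card_fin]
    have hcard : ((2 * (M : ℤ) ^ 2 + 1 - -(2 * (M : ℤ) ^ 2)).toNat) = 4 * M ^ 2 + 1 := by
      have : (2 * (M : ℤ) ^ 2 + 1 - -(2 * (M : ℤ) ^ 2)) = ((4 * M ^ 2 + 1 : ℕ) : ℤ) := by
        push_cast
        ring
      rw [this, Int.toNat_natCast]
    rw [hcard]
    push_cast
    have h1 : (4 : ℝ) * M ^ 2 + 1 ≤ ((M : ℝ) + 2) ^ 3 := by nlinarith [pow_nonneg hM0 3]
    have h2 : ((4 : ℝ) * M ^ 2 + 1) ^ 6 ≤ (((M : ℝ) + 2) ^ 3) ^ 6 :=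
      pow_le_pow_left₀ (by positivity) h1 6
    rw [← pow_mul] at h2
    have h3 : (M : ℝ) ^ 16 ≤ ((M : ℝ) + 2) ^ 16 := pow_le_pow_left₀ hM0 (by linarith) 16
    have h4 : (2 : ℝ) ^ 32 ≤ ((M : ℝ) + 2) ^ 32 := pow_le_pow_left₀ (by norm_num) (by linarith) 32
    have h5 : (2 : ℝ) ^ 24 * (2 * (M : ℝ) ^ 2) ^ 8 = 2 ^ 32 * M ^ 16 := by ring
    rw [h5]
    have h6 : (2 : ℝ) ^ 32 * (M : ℝ) ^ 16 ≤ ((M : ℝ) + 2) ^ 32 * ((M : ℝ) + 2) ^ 16 :=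
      mul_le_mul h4 h3 (by positivity) (by positivity)
    calc ((4 : ℝ) * M ^ 2 + 1) ^ 6 * (2 ^ 32 * (M : ℝ) ^ 16)
        ≤ ((M : ℝ) + 2) ^ (3 * 6) * (((M : ℝ) + 2) ^ 32 * ((M : ℝ) + 2) ^ 16) :=
          mul_le_mul h2 h6 (by positivity) (by positivity)
      _ = ((M : ℝ) + 2) ^ (3 * 6 + (32 + 16)) := by rw [pow_add, pow_add]
  · have h1 : M ^ 4 ≤ (M + 2) ^ 4 := Nat.pow_le_pow_left (by omega) 4
    have h2 : 8 ≤ (M + 2) ^ 3 := by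
      calc 8 = 2 ^ 3 := by norm_num
        _ ≤ _ := Nat.pow_le_pow_left (by omega) 3
    calc 2 * (2 * M ^ 2) ^ 2 = 8 * M ^ 4 := by ring
      _ ≤ (M + 2) ^ 3 * (M + 2) ^ 4 := Nat.mul_le_mul h2 h1
      _ = (M + 2) ^ (3 + 4) := (pow_add _ _ _).symm
      _ ≤ (M + 2) ^ 66 := Nat.pow_le_pow_right (by omega) (by norm_num)

theorem usparse_BD : USparse BD := usparse_WN.or usparse_WT

end Pool.Agent.H326.DL
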