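import Pool.Agent.H326.DL.C
import Pool.Agent.H326.CS.E

/-!
Points of the power covers of lines modulo an auxiliary prime.
-/

set_option autoImplicit false

namespace Pool.Agent.H326.DL

open Finset Pool.Agent.H573.AHB Pool.Agent.H326.CS Pool.Agent.H326.KQ

/-- the minors -/
def dt {k : ℕ} (α β : Fin k → ℤ) (i j : Fin k) : ℤ := α i * β j - α j * β i

section
variable {s q M k : ℕ} {α β : Fin k → ℤ}

lemma dt_bound (hα : ∀ i, |α i| ≤ M) (hβ : ∀ i, |β i| ≤ M) (i j : Fin k) :
    |dt α β i j| ≤ 2 * (M : ℤ) ^ 2 := by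
  unfold dt
  have c1 : |α i * β j| ≤ (M : ℤ) * M := by
    rw [abs_mul]
    exact mul_le_mul (hα i) (hβ j) (abs_nonneg _) (by positivity)
  have c2 : |α j * β i| ≤ (M : ℤ) * M := by
    rw [abs_mul]
    exact mul_le_mul (hα j) (hβ i) (abs_nonneg _) (by positivity)
  have c3 := abs_sub (α i * β j) (α j * β i)
  nlinarith

/-- equal `n`-th powers of small integers -/
lemma num_int (hbd : ¬ WN M q ((q - 1) / s)) (hev : Even ((q - 1) / s)) {a b : ℤ} (ha : a ≠ 0)
    (ha' : |a| ≤ 2 * (M : ℤ) ^ 2) (hb : b ≠ 0) (hb' : |b| ≤ 2 * (M : ℤ) ^ 2)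
    (h : (a : ZMod q) ^ ((q - 1) / s) = (b : ZMod q) ^ ((q - 1) / s)) : a = b ∨ a = -b := by
  rw [← Int.natAbs_eq_natAbs_iff]
  by_contra hne
  apply hbd
  rw [← abs_pow_even hev a, ← abs_pow_even hev b] at h
  refine ⟨(a.natAbs, b.natAbs), mem_product.mpr ⟨mem_Icc.mpr ⟨?_, ?_⟩, mem_Icc.mpr ⟨?_, ?_⟩⟩,
    hne, h⟩
  · exact Nat.one_le_iff_ne_zero.mpr (Int.natAbs_ne_zero.mpr ha)
  · rw [Int.abs_eq_natAbs] at ha'
    exact_mod_cast ha'
  · exact Nat.one_le_iff_ne_zero.mpr (Int.natAbs_ne_zero.mpr hb)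
  · rw [Int.abs_eq_natAbs] at hb'
    exact_mod_cast hb'

/-- **points modulo an auxiliary prime are trivial** -/
theorem mod_main (hq : q.Prime) (hs : s.Prime) (hs2 : 2 < s) (hsq : s ∣ q - 1)
    (hMq : 6 * M ^ 2 < q) (hbd : ¬ BD M q ((q - 1) / s)) (hk : 4 ≤ k) (hα : ∀ i, |α i| ≤ M)
    (hβ : ∀ i, |β i| ≤ M) (hd : ∀ i j, i ≠ j → dt α β i j ≠ 0) (y : Fin k → ZMod q)
    (hy : ∃ i, y i ≠ 0)
    (hR : ∀ i j l, (dt α β j l : ZMod q) * y i ^ s + (dt α β l i : ZMod q) * y j ^ s +
      (dt α β i j : ZMod q) * y l ^ s = 0) :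
    ∃ a b : ℚ, (∀ i, α i * a + β i * b = 0 ∨ α i * a + β i * b = 1 ∨ α i * a + β i * b = -1) ∧
      ∃ i, α i * a + β i * b ≠ 0 := by
  classical
  have hF : Fact q.Prime := ⟨hq⟩
  obtain ⟨hn, hev, hn1, hlt⟩ := aux_n hq hs hs2 hsq
  have hWN : ¬ WN M q ((q - 1) / s) := fun h => hbd (Or.inl h)
  have hWT : ¬ WT M q ((q - 1) / s) := fun h => hbd (Or.inr h)
  have numq := @num_int s q M hWN hev
  obtain ⟨n, hnn⟩ : ∃ n, n = (q - 1) / s := ⟨_, rfl⟩
  rw [← hnn] at hn hev hn1 hWT numq
  have hs0 : s ≠ 0 := by omega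
  have pn : ∀ w : ZMod q, w ≠ 0 → (w ^ s) ^ n = 1 := fun w hw => pw hq hn w hw
  have hb := dt_bound hα hβ
  have hdq : ∀ i j, i ≠ j → (dt α β i j : ZMod q) ≠ 0 := by
    intro i j hij
    refine int_ne (H := 2 * M ^ 2) (by omega) (hd i j hij) ?_
    push_cast
    exact hb i j
  obtain ⟨i0, hi0⟩ := hy
  obtain ⟨U, hU⟩ : ∃ U : Fin k → ZMod q, U = fun i => y i ^ s := ⟨_, rfl⟩
  have hUi : ∀ i, y i ^ s = U i := fun i => by rw [hU]
  simp only [hUi] at hR
  have hU0 : U i0 ≠ 0 := by rw [← hUi]; exact pow_ne_zero s hi0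
  have step1 : ∀ i, ∃ e : ℤ, (e = 0 ∨ e = 1 ∨ e = -1) ∧ U i = (e : ZMod q) * U i0 := by
    intro i
    by_cases hii : i = i0
    · refine ⟨1, Or.inr (Or.inl rfl), ?_⟩
      rw [hii]
      push_cast
      rw [one_mul]
    by_cases hyi : y i = 0
    · refine ⟨0, Or.inl rfl, ?_⟩
      rw [← hUi, hyi, zero_pow hs0]
      push_cast
      rw [zero_mul]
    by_cases hA : ∃ j, y j = 0
    · obtain ⟨j1, hj1⟩ := hA
      have hj10 : j1 ≠ i0 := by rintro rfl; exact hi0 hj1
      have hj1i : j1 ≠ i := by rintro rfl; exact hyi hj1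
      have hUj : U j1 = 0 := by rw [← hUi, hj1, zero_pow hs0]
      have h1 := hR i0 j1 i
      rw [hUj, mul_zero, add_zero] at h1
      have h2 : (dt α β j1 i : ZMod q) * U i0 = -((dt α β i0 j1 : ZMod q) * U i) :=
        eq_neg_of_add_eq_zero_left h1
      have h3 := congrArg (fun w => w ^ n) h2
      simp only [hev.neg_pow, mul_pow] at h3
      rw [← hUi i0, ← hUi i, pn _ hi0, pn _ hyi, mul_one, mul_one] at h3
      rcases numq (hd _ _ hj1i) (hb _ _) (hd _ _ hj10.symm) (hb _ _) h3 with h4 | h4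
      · refine ⟨-1, Or.inr (Or.inr rfl), ?_⟩
        rw [h4] at h2
        have h5 : (dt α β i0 j1 : ZMod q) * (U i + U i0) = 0 := by linear_combination h2
        have h6 := (mul_eq_zero.mp h5).resolve_left (hdq _ _ hj10.symm)
        push_cast
        linear_combination h6
      · refine ⟨1, Or.inr (Or.inl rfl), ?_⟩
        rw [h4] at h2
        push_cast at h2
        have h5 : (dt α β i0 j1 : ZMod q) * (U i - U i0) = 0 := by linear_combination h2
        have h6 := (mul_eq_zero.mp h5).resolve_left (hdq _ _ hj10.symm)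
        push_cast
        linear_combination h6
    · push Not at hA
      have hcard : 1 < ((univ : Finset (Fin k)) \ {i0, i}).card := by
        have h1 := Finset.le_card_sdiff ({i0, i} : Finset (Fin k)) univ
        have h2 : ({i0, i} : Finset (Fin k)).card ≤ 2 := Finset.card_le_two
        rw [Finset.card_univ, Fintype.card_fin] at h1
        omega
      obtain ⟨j, hj, l, hl, hjl⟩ := Finset.one_lt_card.mp hcard
      simp only [mem_sdiff, mem_univ, true_and, mem_insert, mem_singleton, not_or] at hj hl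
      obtain ⟨t, ht⟩ : ∃ t, t = U i / U i0 := ⟨_, rfl⟩
      have htn : t ^ n = 1 := by
        rw [ht, div_pow, ← hUi, ← hUi, pn _ hyi, pn _ hi0, div_one]
      have key : ∀ m : Fin k, ((dt α β i m : ZMod q) + (dt α β m i0 : ZMod q) * t) ^ n =
          (dt α β i0 i : ZMod q) ^ n := by
        intro m
        have h1 := hR i0 i m
        have h2 : (dt α β i m : ZMod q) + (dt α β m i0 : ZMod q) * t =
            -((dt α β i0 i : ZMod q) * (U m / U i0)) := by
          rw [ht]
          field_simp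
          linear_combination h1
        rw [h2, hev.neg_pow, mul_pow, div_pow, ← hUi, ← hUi, pn _ (hA m), pn _ hi0, div_one,
          mul_one]
      have ht2 : t ^ 2 = 1 := by
        by_contra hne
        apply hWT
        refine ⟨![dt α β i j, dt α β j i0, dt α β i0 i, dt α β i l, dt α β l i0, dt α β i0 i],
          ?_, ⟨?_, ?_⟩, t, hne, htn, key j, key l⟩
        · rw [Fintype.mem_piFinset]
          intro m
          rw [mem_Icc]
          fin_cases m
          · exact abs_le.mp (hb _ _)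
          · exact abs_le.mp (hb _ _)
          · exact abs_le.mp (hb _ _)
          · exact abs_le.mp (hb _ _)
          · exact abs_le.mp (hb _ _)
          · exact abs_le.mp (hb _ _)
        · intro m
          fin_cases m
          · exact hd _ _ (Ne.symm hj.2)
          · exact hd _ _ hj.1
          · exact hd _ _ (Ne.symm hii)
          · exact hd _ _ (Ne.symm hl.2)
          · exact hd _ _ hl.1
          · exact hd _ _ (Ne.symm hii)
        · intro h0
          have h1 : dt α β i0 i * dt α β j l = 0 := by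
            have h2 : dt α β i j * dt α β l i0 = dt α β j i0 * dt α β i l := h0
            have h3 : dt α β i0 i * dt α β j l =
                dt α β i j * dt α β l i0 - dt α β j i0 * dt α β i l := by
              unfold dt
              ring
            rw [h3, h2, sub_self]
          rcases mul_eq_zero.mp h1 with h2 | h2
          · exact hd _ _ (Ne.symm hii) h2
          · exact hd _ _ hjl h2
      have ht3 : (t - 1) * (t + 1) = 0 := by linear_combination ht2
      have ht4 : U i = t * U i0 := by rw [ht, div_mul_cancel₀ _ hU0]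
      rcases mul_eq_zero.mp ht3 with h1 | h1
      · refine ⟨1, Or.inr (Or.inl rfl), ?_⟩
        rw [ht4, sub_eq_zero.mp h1]
        push_cast
        ring
      · refine ⟨-1, Or.inr (Or.inr rfl), ?_⟩
        rw [ht4, eq_neg_of_add_eq_zero_left h1]
        push_cast
        ring
  choose e he1 he2 using step1
  have hcard : 0 < ((univ : Finset (Fin k)) \ {i0}).card := by
    have h1 := Finset.le_card_sdiff ({i0} : Finset (Fin k)) univ
    rw [Finset.card_univ, Fintype.card_fin, Finset.card_singleton] at h1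
    omega
  obtain ⟨j, hj⟩ := Finset.card_pos.mp hcard
  simp only [mem_sdiff, mem_univ, true_and, mem_singleton] at hj
  have hS : ∀ i, dt α β j i + dt α β i i0 * e j + dt α β i0 j * e i = 0 := by
    intro i
    have h1 := hR i0 j i
    rw [he2 j, he2 i] at h1
    have h2 : ((dt α β j i + dt α β i i0 * e j + dt α β i0 j * e i : ℤ) : ZMod q) * U i0 = 0 := by
      push_cast
      linear_combination h1
    have h3 := (mul_eq_zero.mp h2).resolve_right hU0
    by_contra hne
    refine int_ne (H := 6 * M ^ 2) hMq hne ?_ h3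
    have b1 : |e j| ≤ 1 := by rcases he1 j with h | h | h <;> rw [h] <;> norm_num
    have b2 : |e i| ≤ 1 := by rcases he1 i with h | h | h <;> rw [h] <;> norm_num
    have c1 := hb j i
    have c2 : |dt α β i i0 * e j| ≤ 2 * (M : ℤ) ^ 2 := by
      rw [abs_mul]
      calc |dt α β i i0| * |e j| ≤ |dt α β i i0| * 1 :=
            mul_le_mul_of_nonneg_left b1 (abs_nonneg _)
        _ ≤ _ := by rw [mul_one]; exact hb i i0
    have c3 : |dt α β i0 j * e i| ≤ 2 * (M : ℤ) ^ 2 := by
      rw [abs_mul]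
      calc |dt α β i0 j| * |e i| ≤ |dt α β i0 j| * 1 :=
            mul_le_mul_of_nonneg_left b2 (abs_nonneg _)
        _ ≤ _ := by rw [mul_one]; exact hb i0 j
    have d1 := abs_add_le (dt α β j i + dt α β i i0 * e j) (dt α β i0 j * e i)
    have d2 := abs_add_le (dt α β j i) (dt α β i i0 * e j)
    push_cast
    linarith
  have hd0 : (dt α β i0 j : ℚ) ≠ 0 := by exact_mod_cast hd i0 j (Ne.symm hj)
  have hval : ∀ i, (α i : ℚ) * (((β j : ℚ) - β i0 * e j) / dt α β i0 j) +
      β i * (((α i0 : ℚ) * e j - α j) / dt α β i0 j) = e i := by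
    intro i
    have h1 : (dt α β i0 j : ℚ) * e i = -(dt α β j i) - dt α β i i0 * e j := by
      have h2 := hS i
      have h3 : ((dt α β j i + dt α β i i0 * e j + dt α β i0 j * e i : ℤ) : ℚ) = 0 := by
        rw [h2, Int.cast_zero]
      push_cast at h3
      linarith
    have h4 : (α i : ℚ) * (((β j : ℚ) - β i0 * e j) / dt α β i0 j) +
        β i * (((α i0 : ℚ) * e j - α j) / dt α β i0 j) =
        (-(dt α β j i) - dt α β i i0 * e j) / dt α β i0 j := by
      rw [mul_div_assoc', mul_div_assoc', ← add_div]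
      congr 1
      unfold dt
      push_cast
      ring
    rw [h4, ← h1, mul_div_cancel_left₀ _ hd0]
  refine ⟨((β j : ℚ) - β i0 * e j) / dt α β i0 j, ((α i0 : ℚ) * e j - α j) / dt α β i0 j,
    fun i => ?_, i0, ?_⟩
  · rw [hval i]
    rcases he1 i with h | h | h
    · left; rw [h]; norm_num
    · right; left; rw [h]; norm_num
    · right; right; rw [h]; norm_num
  · rw [hval i0]
    intro h0
    have h1 : e i0 = 0 := by exact_mod_cast h0
    have h2 := he2 i0
    rw [h1, Int.cast_zero, zero_mul] at h2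
    exact hU0 h2

end

end Pool.Agent.H326.DL
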