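import Pool.Agent.H326.DL.D

/-!
From points over `ℚ_q` to points modulo `q`.
-/

set_option autoImplicit false

namespace Pool.Agent.H326.DL

open Finset

/-- a solution over `ℚ_q` of homogeneous diagonal relations with integer coefficients gives one
modulo `q` -/
lemma padic_red {q : ℕ} [Fact q.Prime] {k : ℕ} (α β : Fin k → ℤ) (N : ℕ) (x : Fin k → ℚ_[q])
    (hx : ∃ i, x i ≠ 0)
    (hR : ∀ i j l, (dt α β j l : ℚ_[q]) * x i ^ N + (dt α β l i : ℚ_[q]) * x j ^ N +
      (dt α β i j : ℚ_[q]) * x l ^ N = 0) :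
    ∃ w : Fin k → ZMod q, (∃ i, w i ≠ 0) ∧
      ∀ i j l, (dt α β j l : ZMod q) * w i ^ N + (dt α β l i : ZMod q) * w j ^ N +
        (dt α β i j : ZMod q) * w l ^ N = 0 := by
  classical
  obtain ⟨i1, hi1⟩ := hx
  obtain ⟨j, -, hj⟩ := Finset.exists_max_image (univ : Finset (Fin k)) (fun i => ‖x i‖)
    ⟨i1, mem_univ i1⟩
  have hxj : x j ≠ 0 := by
    intro h0
    have h1 := hj i1 (mem_univ _)
    rw [h0, norm_zero] at h1
    exact hi1 (norm_le_zero_iff.mp h1)
  have hle : ∀ i, ‖x i / x j‖ ≤ 1 := by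
    intro i
    rw [norm_div]
    exact div_le_one_of_le₀ (hj i (mem_univ _)) (norm_nonneg _)
  obtain ⟨z, hz⟩ : ∃ z : Fin k → ℤ_[q], ∀ i, ((z i : ℤ_[q]) : ℚ_[q]) = x i / x j :=
    ⟨fun i => ⟨x i / x j, hle i⟩, fun i => rfl⟩
  have hrel : ∀ i j l, ((dt α β j l : ℤ) : ℤ_[q]) * z i ^ N + ((dt α β l i : ℤ) : ℤ_[q]) * z j ^ N +
      ((dt α β i j : ℤ) : ℤ_[q]) * z l ^ N = 0 := by
    intro i m l
    apply PadicInt.ext
    push_cast
    rw [hz, hz, hz, div_pow, div_pow, div_pow]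
    have h1 := hR i m l
    have hN : x j ^ N ≠ 0 := pow_ne_zero N hxj
    field_simp
    linear_combination h1
  refine ⟨fun i => PadicInt.toZMod (z i), ⟨j, ?_⟩, ?_⟩
  · have h1 : z j = 1 := by
      apply PadicInt.ext
      rw [hz, div_self hxj]
      rfl
    show PadicInt.toZMod (z j) ≠ 0
    rw [h1, map_one]
    exact one_ne_zero
  · intro i m l
    have h1 := congrArg (PadicInt.toZMod (p := q)) (hrel i m l)
    simpa only [map_add, map_mul, map_pow, map_intCast, map_zero] using h1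

end Pool.Agent.H326.DL
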